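import Pool.Agent.H84.R2.B.S8.W133.DQ.StC

/-! DQ-CURVE: the Umlaufsatz type contradiction. -/

set_option autoImplicit false

open Set Filter Topology

namespace Pool.Agent.W853.DQ

open Pool.Agent.W133.DQ

/-- secant function -/
noncomputable def sec (v : ℝ → P2) (q : ℝ × ℝ) : P2 :=
  ∫ u in (0 : ℝ)..1, v (q.1 + u * (q.2 - q.1))

theorem sec_cont (v : ℝ → P2) (hv : Continuous v) : Continuous (sec v) := by
  unfold sec
  apply intervalIntegral.continuous_parametric_intervalIntegral_of_continuous'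
  unfold Function.uncurry
  fun_prop

theorem sec_diag (v : ℝ → P2) (s : ℝ) : sec v (s, s) = v s := by
  simp [sec]

theorem sec_eq {c v : ℝ → P2} (hc : ∀ t, HasDerivAt c (v t) t) (hv : Continuous v) (s t : ℝ) :
    (t - s) • sec v (s, t) = c t - c s := by
  have h := intervalIntegral.integral_unitInterval_deriv_eq_sub (𝕜 := ℝ) (f := c) (f' := v)
    (z₀ := s) (z₁ := t - s) (by apply Continuous.continuousOn; fun_prop) (fun u _ => hc _)
  simp only [smul_eq_mul] at h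
  rw [show s + (t - s) = t by ring] at h
  exact h

theorem stay_lt {θ : ℝ → ℝ} {a b v : ℝ} (hc : ContinuousOn θ (Icc a b))
    (hv : ∀ t ∈ Icc a b, θ t ≠ v) (ha : θ a < v) : ∀ t ∈ Icc a b, θ t < v := by
  intro t ht
  by_contra h
  have hsub : Icc a t ⊆ Icc a b := Icc_subset_Icc_right ht.2
  obtain ⟨u, hu, hu'⟩ := intermediate_value_Icc ht.1 (hc.mono hsub) ⟨ha.le, not_lt.1 h⟩
  exact hv u (hsub hu) hu'

theorem stay_gt {θ : ℝ → ℝ} {a b v : ℝ} (hc : ContinuousOn θ (Icc a b))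
    (hv : ∀ t ∈ Icc a b, θ t ≠ v) (ha : v < θ a) : ∀ t ∈ Icc a b, v < θ t := by
  have := stay_lt (θ := fun t => -θ t) (v := -v) hc.neg
    (fun t ht h => hv t ht (neg_injective h)) (neg_lt_neg ha)
  intro t ht
  have := this t ht
  linarith

/-- the triangle -/
def Kk (τ κ : ℝ) : Set (ℝ × ℝ) := {q | 0 ≤ q.1 ∧ q.1 ≤ q.2 ∧ q.2 ≤ τ ∧ q.2 - q.1 ≤ τ - κ}

theorem Kk_convex (τ κ : ℝ) : Convex ℝ (Kk τ κ) := by
  rintro ⟨a1, a2⟩ ⟨h1, h2, h3, h4⟩ ⟨b1, b2⟩ ⟨g1, g2, g3, g4⟩ x y hx hy hxy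
  simp only at h1 h2 h3 h4 g1 g2 g3 g4
  have e : y = 1 - x := by linarith
  refine ⟨?_, ?_, ?_, ?_⟩ <;> simp only [Prod.fst_add, Prod.smul_fst, Prod.snd_add,
    Prod.smul_snd, smul_eq_mul]
  · positivity
  · nlinarith
  · have : τ = x * τ + y * τ := by rw [← add_mul, hxy, one_mul]
    rw [this]
    nlinarith
  · have : τ - κ = x * (τ - κ) + y * (τ - κ) := by rw [← add_mul, hxy, one_mul]
    rw [this]
    nlinarith

theorem Kk_compact (τ κ : ℝ) : IsCompact (Kk τ κ) := by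
  have h1 : IsClosed (Kk τ κ) := by
    unfold Kk
    have a1 : IsClosed {q : ℝ × ℝ | 0 ≤ q.1} := isClosed_le continuous_const continuous_fst
    have a2 : IsClosed {q : ℝ × ℝ | q.1 ≤ q.2} := isClosed_le continuous_fst continuous_snd
    have a3 : IsClosed {q : ℝ × ℝ | q.2 ≤ τ} := isClosed_le continuous_snd continuous_const
    have a4 : IsClosed {q : ℝ × ℝ | q.2 - q.1 ≤ τ - κ} :=
      isClosed_le (continuous_snd.sub continuous_fst) continuous_const
    exact a1.inter (a2.inter (a3.inter a4))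
  refine (isCompact_Icc (a := ((0, 0) : ℝ × ℝ)) (b := (τ, τ))).of_isClosed_subset h1 ?_
  rintro ⟨a, b⟩ ⟨h1, h2, h3, -⟩
  simp only at h1 h2 h3
  exact ⟨⟨h1, h1.trans h2⟩, ⟨h2.trans h3, h3⟩⟩

/-- the main lift -/
theorem main_lift (hL : S_LIFT) (ψ : P2 → ℝ) (c : ℝ → P2) (τ κ : ℝ) (hψ : Continuous ψ)
    (hτ : 0 < τ) (hκ : κ < τ) (hc : ∀ t, HasDerivAt c (XF ψ (c t)) t)
    (h0 : ψ (c 0) = 0) (hne : ∀ s t, (s, t) ∈ Kk τ κ → s < t → c s ≠ c t) :
    ∃ Θ : ℝ × ℝ → ℝ, ContinuousOn Θ (Kk τ κ) ∧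
      (∀ s t, (s, t) ∈ Kk τ κ → s < t → ∃ r : ℝ, 0 < r ∧
        (c t).1 - (c s).1 = r * Real.cos (Θ (s, t)) ∧
        (c t).2 - (c s).2 = r * Real.sin (Θ (s, t))) ∧
      ∀ s ∈ Icc (0 : ℝ) τ, Θ (s, s) = ψ (c s) := by
  set v : ℝ → P2 := fun t => XF ψ (c t) with hv
  have hcc : Continuous c := continuous_iff_continuousAt.2 fun t => (hc t).continuousAt
  have hvc : Continuous v := by
    rw [hv]; unfold XF; fun_prop
  have hdiag : ∀ s ∈ Icc (0 : ℝ) τ, ((s, s) : ℝ × ℝ) ∈ Kk τ κ := by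
    rintro s ⟨a, b⟩
    exact ⟨a, le_rfl, b, by simp only; linarith⟩
  have hnz : ∀ q ∈ Kk τ κ, sec v q ≠ 0 := by
    rintro ⟨s, t⟩ hq h
    rcases eq_or_lt_of_le hq.2.1 with h1 | h1
    · simp only at h1
      subst h1
      rw [sec_diag] at h
      have e1 : Real.cos (ψ (c s)) = 0 := congrArg Prod.fst h
      have e2 : Real.sin (ψ (c s)) = 0 := congrArg Prod.snd h
      have := Real.sin_sq_add_cos_sq (ψ (c s))
      rw [e1, e2] at this
      norm_num at this
    · have := sec_eq hc hvc s t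
      rw [h, smul_zero] at this
      exact hne s t hq h1 (sub_eq_zero.1 this.symm).symm
  obtain ⟨Θ0, hΘc, hΘ⟩ := hL (Kk τ κ) (sec v) (Kk_convex τ κ) (Kk_compact τ κ)
    (sec_cont v hvc).continuousOn hnz
  -- normalisation
  have hunit : ∀ s ∈ Icc (0 : ℝ) τ, Real.cos (Θ0 (s, s)) = Real.cos (ψ (c s)) ∧
      Real.sin (Θ0 (s, s)) = Real.sin (ψ (c s)) := by
    intro s hs
    obtain ⟨r, hr, e⟩ := hΘ (s, s) (hdiag s hs)
    rw [sec_diag] at e
    have e1 : Real.cos (ψ (c s)) = r * Real.cos (Θ0 (s, s)) := congrArg Prod.fst e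
    have e2 : Real.sin (ψ (c s)) = r * Real.sin (Θ0 (s, s)) := congrArg Prod.snd e
    have q1 := Real.sin_sq_add_cos_sq (ψ (c s))
    have q2 := Real.sin_sq_add_cos_sq (Θ0 (s, s))
    rw [e1, e2] at q1
    have q3 : r ^ 2 = 1 := by
      have : r ^ 2 * (Real.sin (Θ0 (s, s)) ^ 2 + Real.cos (Θ0 (s, s)) ^ 2) = 1 := by
        rw [← q1]; ring
      rwa [q2, mul_one] at this
    have q4 : r = 1 := by nlinarith
    rw [q4, one_mul] at e1 e2
    exact ⟨e1.symm, e2.symm⟩
  have h00 := hunit 0 ⟨le_rfl, hτ.le⟩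
  rw [h0, Real.cos_zero, Real.sin_zero] at h00
  obtain ⟨n, hn⟩ := (Real.cos_eq_one_iff _).1 h00.1
  refine ⟨fun q => Θ0 q - n * (2 * Real.pi), hΘc.sub continuousOn_const, ?_, ?_⟩
  · intro s t hq hst
    obtain ⟨r, hr, e⟩ := hΘ (s, t) hq
    have e3 := sec_eq hc hvc s t
    rw [e] at e3
    refine ⟨(t - s) * r, mul_pos (sub_pos.2 hst) hr, ?_, ?_⟩
    · have := congrArg Prod.fst e3
      simp only [Prod.smul_mk, smul_eq_mul, Prod.fst_sub] at this
      rw [Real.cos_sub_int_mul_two_pi, ← this]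
      ring
    · have := congrArg Prod.snd e3
      simp only [Prod.smul_mk, smul_eq_mul, Prod.snd_sub] at this
      rw [Real.sin_sub_int_mul_two_pi, ← this]
      ring
  · -- the diagonal
    set d : ℝ → ℝ := fun s => Θ0 (s, s) - n * (2 * Real.pi) - ψ (c s) with hd
    have hpi := Real.pi_pos
    have hdc : ContinuousOn d (Icc 0 τ) := by
      apply ContinuousOn.sub
      · apply ContinuousOn.sub _ continuousOn_const
        have : ContinuousOn (fun s : ℝ => ((s, s) : ℝ × ℝ)) (Icc 0 τ) := by fun_prop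
        exact hΘc.comp this hdiag
      · exact (hψ.comp hcc).continuousOn
    have hcos : ∀ s ∈ Icc (0 : ℝ) τ, Real.cos (d s) = 1 := by
      intro s hs
      obtain ⟨u1, u2⟩ := hunit s hs
      rw [hd]
      simp only
      rw [Real.cos_sub, Real.cos_sub_int_mul_two_pi, Real.sin_sub_int_mul_two_pi, u1, u2]
      have := Real.sin_sq_add_cos_sq (ψ (c s))
      nlinarith
    have hd0 : d 0 = 0 := by
      rw [hd]
      simp only
      rw [h0, ← hn]
      ring
    have l1 := stay_lt (v := Real.pi) hdc (fun t ht h => by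
      have := hcos t ht
      rw [h, Real.cos_pi] at this
      norm_num at this) (by rw [hd0]; exact hpi)
    have l2 := stay_gt (v := -Real.pi) hdc (fun t ht h => by
      have := hcos t ht
      rw [h, Real.cos_neg, Real.cos_pi] at this
      norm_num at this) (by rw [hd0]; linarith)
    intro s hs
    have h1 := (Real.cos_eq_one_iff_of_lt_of_lt (by linarith [l2 s hs])
      (by linarith [l1 s hs])).1 (hcos s hs)
    rw [hd] at h1
    simp only at h1
    linarith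

theorem sin_neg_mid {θ : ℝ} (h1 : Real.pi < θ) (h2 : θ < 2 * Real.pi) : Real.sin θ < 0 := by
  have : 0 < Real.sin (θ - Real.pi) := Real.sin_pos_of_pos_of_lt_pi (by linarith) (by linarith)
  rw [Real.sin_sub_pi] at this
  linarith

/-- first leg -/
theorem leg_one {ψ : P2 → ℝ} {c : ℝ → P2} {τ κ : ℝ} {Θ : ℝ × ℝ → ℝ} (hτ : 0 < τ) (hκ : κ < τ)
    (hκ0 : 0 ≤ κ) (h0 : ψ (c 0) = 0)
    (hlow : ∀ t, 0 ≤ t → t ≤ τ → (c 0).2 ≤ (c t).2)
    (hΘc : ContinuousOn Θ (Kk τ κ))
    (hr : ∀ s t, (s, t) ∈ Kk τ κ → s < t → ∃ r : ℝ, 0 < r ∧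
        (c t).1 - (c s).1 = r * Real.cos (Θ (s, t)) ∧
        (c t).2 - (c s).2 = r * Real.sin (Θ (s, t)))
    (hd : ∀ s ∈ Icc (0 : ℝ) τ, Θ (s, s) = ψ (c s)) :
    ∀ t ∈ Icc (0 : ℝ) (τ - κ), 0 ≤ Θ (0, t) ∧ Θ (0, t) ≤ Real.pi := by
  have hpi := Real.pi_pos
  have hK : ∀ t ∈ Icc (0 : ℝ) (τ - κ), ((0, t) : ℝ × ℝ) ∈ Kk τ κ := by
    rintro t ⟨a, b⟩
    exact ⟨le_rfl, a, by simp only; linarith, by simp only; linarith⟩
  have hc : ContinuousOn (fun t => Θ (0, t)) (Icc 0 (τ - κ)) := by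
    have : ContinuousOn (fun s : ℝ => ((0, s) : ℝ × ℝ)) (Icc 0 (τ - κ)) := by fun_prop
    exact hΘc.comp this hK
  have h00 : Θ (0, 0) = 0 := by rw [hd 0 ⟨le_rfl, hτ.le⟩, h0]
  have hs : ∀ t ∈ Icc (0 : ℝ) (τ - κ), 0 ≤ Real.sin (Θ (0, t)) := by
    intro t ht
    rcases eq_or_lt_of_le ht.1 with h1 | h1
    · rw [← h1, h00, Real.sin_zero]
    · obtain ⟨r, hr0, -, e2⟩ := hr 0 t (hK t ht) h1
      have := hlow t ht.1 (by linarith [ht.2])
      by_contra hneg
      have : r * Real.sin (Θ (0, t)) < 0 := mul_neg_of_pos_of_neg hr0 (not_le.1 hneg)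
      linarith
  have e3 : Real.sin (3 * Real.pi / 2) = -1 := by
    rw [show 3 * Real.pi / 2 = Real.pi / 2 + Real.pi by ring, Real.sin_add_pi, Real.sin_pi_div_two]
  have l1 := stay_lt (v := 3 * Real.pi / 2) hc (fun t ht h => by
    have := hs t ht
    rw [h, e3] at this
    norm_num at this) (by rw [h00]; linarith)
  have l2 := stay_gt (v := -(Real.pi / 2)) hc (fun t ht h => by
    have := hs t ht
    rw [h, Real.sin_neg, Real.sin_pi_div_two] at this
    norm_num at this) (by rw [h00]; linarith)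
  intro t ht
  have a1 := l1 t ht
  have a2 := l2 t ht
  have a3 := hs t ht
  constructor
  · by_contra h
    have := Real.sin_neg_of_neg_of_neg_pi_lt (not_le.1 h) (by linarith)
    linarith
  · by_contra h
    have := sin_neg_mid (not_le.1 h) (by linarith)
    linarith

theorem t_curve (hL : S_LIFT) : S_CURVE := by
  intro ψ c τ hψ hτ hc hlow h0 hx hang hinj hcross
  have hpi := Real.pi_pos
  have hcc : Continuous c := continuous_iff_continuousAt.2 fun t => (hc t).continuousAt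
  have hx1 : ∀ t, HasDerivAt (fun s => (c s).1) (Real.cos (ψ (c t))) t := fun t =>
    (hasFDerivAt_fst (𝕜 := ℝ) (p := c t)).comp_hasDerivAt t (hc t)
  -- the first coordinate is increasing near 0 and, in case B, near τ
  have hmono : ∀ a b : ℝ, (∀ t ∈ Icc a b, 0 < Real.cos (ψ (c t))) →
      StrictMonoOn (fun s => (c s).1) (Icc a b) := by
    intro a b hab
    apply strictMonoOn_of_deriv_pos (convex_Icc a b)
    · exact (continuous_fst.comp hcc).continuousOn
    · intro t ht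
      rw [interior_Icc] at ht
      rw [(hx1 t).deriv]
      exact hab t ⟨ht.1.le, ht.2.le⟩
  have hnear : ∀ t0 : ℝ, |ψ (c t0)| < Real.pi / 2 → ∃ κ : ℝ, 0 < κ ∧ ∀ t, |t - t0| ≤ κ →
      0 < Real.cos (ψ (c t)) := by
    intro t0 ht0
    have h1 : 0 < Real.cos (ψ (c t0)) :=
      Real.cos_pos_of_mem_Ioo ⟨(abs_lt.1 ht0).1, (abs_lt.1 ht0).2⟩
    have h2 : Continuous (fun t => Real.cos (ψ (c t))) := by fun_prop
    have h3 : ∀ᶠ t in 𝓝 t0, 0 < Real.cos (ψ (c t)) := h2.continuousAt.eventually (lt_mem_nhds h1)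
    obtain ⟨ε, hε, h4⟩ := Metric.eventually_nhds_iff.1 h3
    refine ⟨ε / 2, by positivity, fun t ht => h4 ?_⟩
    rw [Real.dist_eq]
    linarith
  obtain ⟨κ1, hκ1, hn1⟩ := hnear 0 (by rw [h0, abs_zero]; linarith)
  by_cases hcase : c τ = c 0
  · -- CASE B
    obtain ⟨κ2, hκ2, hn2⟩ := hnear τ hang
    have hψτ : ψ (c τ) = 0 := by rw [hcase, h0]
    set κ : ℝ := min (min κ1 κ2) (τ / 4) with hκd
    have hκ : 0 < κ := by positivity
    have k1 : κ ≤ κ1 := (min_le_left _ _).trans (min_le_left _ _)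
    have k2 : κ ≤ κ2 := (min_le_left _ _).trans (min_le_right _ _)
    have k3 : κ ≤ τ / 4 := min_le_right _ _
    have m1 : StrictMonoOn (fun s => (c s).1) (Icc 0 κ) := hmono 0 κ fun t ht =>
      hn1 t (by rw [abs_le]; constructor <;> linarith [ht.1, ht.2])
    have m2 : StrictMonoOn (fun s => (c s).1) (Icc (τ - κ) τ) := hmono _ _ fun t ht =>
      hn2 t (by rw [abs_le]; constructor <;> linarith [ht.1, ht.2])
    obtain ⟨Θ, hΘc, hr, hd⟩ := main_lift hL ψ c τ κ hψ hτ (by linarith) hc h0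
      (fun s t hq hst h => by
        obtain ⟨q1, q2, q3, q4⟩ := hq
        simp only at q1 q2 q3 q4
        obtain ⟨e1, e2⟩ := hinj s t q1 hst q3 h
        rw [e1, e2] at q4
        linarith)
    have leg1 := leg_one hτ (by linarith) hκ.le h0 hlow hΘc hr hd
    -- leg two
    have hx2 : ∀ s ∈ Icc (0 : ℝ) κ, (c (s + (τ - κ))).1 < (c s).1 := by
      intro s hs
      rcases eq_or_lt_of_le hs.1 with h1 | h1
      · rw [← h1, zero_add]
        have := m2 (a := τ - κ) (b := τ) ⟨le_rfl, by linarith⟩ ⟨by linarith, le_rfl⟩ (by linarith)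
        simp only at this
        rw [hx] at this
        exact this
      · have a1 := m1 (a := 0) (b := s) ⟨le_rfl, hκ.le⟩ hs h1
        have a2 := m2.monotoneOn (a := s + (τ - κ)) (b := τ) ⟨by linarith, by linarith [hs.2]⟩
          ⟨by linarith, le_rfl⟩ (by linarith [hs.2])
        simp only at a1 a2
        rw [hx] at a2
        linarith
    have hK2 : ∀ s ∈ Icc (0 : ℝ) κ, ((s, s + (τ - κ)) : ℝ × ℝ) ∈ Kk τ κ := by
      rintro s ⟨a, b⟩
      exact ⟨a, by simp only; linarith, by simp only; linarith, by simp only; linarith⟩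
    have hc2 : ContinuousOn (fun s => Θ (s, s + (τ - κ))) (Icc 0 κ) := by
      have : ContinuousOn (fun s : ℝ => ((s, s + (τ - κ)) : ℝ × ℝ)) (Icc 0 κ) := by fun_prop
      exact hΘc.comp this hK2
    have hcos2 : ∀ s ∈ Icc (0 : ℝ) κ, Real.cos (Θ (s, s + (τ - κ))) < 0 := by
      intro s hs
      obtain ⟨r, hr0, e1, -⟩ := hr s (s + (τ - κ)) (hK2 s hs) (by linarith)
      have := hx2 s hs
      by_contra h
      have : 0 ≤ r * Real.cos (Θ (s, s + (τ - κ))) := mul_nonneg hr0.le (not_lt.1 h)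
      linarith
    have hst0 : Real.pi / 2 < Θ (0, 0 + (τ - κ)) ∧ Θ (0, 0 + (τ - κ)) < 3 * Real.pi / 2 := by
      have a1 := hcos2 0 ⟨le_rfl, hκ.le⟩
      rw [zero_add] at a1 ⊢
      have a2 := leg1 (τ - κ) ⟨by linarith, le_rfl⟩
      constructor
      · by_contra h
        have := Real.cos_nonneg_of_neg_pi_div_two_le_of_le (x := Θ (0, τ - κ)) (by linarith)
          (not_lt.1 h)
        linarith
      · linarith
    have c3 : Real.cos (3 * Real.pi / 2) = 0 := by
      rw [show 3 * Real.pi / 2 = Real.pi / 2 + Real.pi by ring, Real.cos_add_pi,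
        Real.cos_pi_div_two, neg_zero]
    have l1 := stay_lt (v := 3 * Real.pi / 2) hc2 (fun t ht h => by
      have := hcos2 t ht
      rw [h, c3] at this
      exact lt_irrefl _ this) hst0.2
    have l2 := stay_gt (v := Real.pi / 2) hc2 (fun t ht h => by
      have := hcos2 t ht
      rw [h, Real.cos_pi_div_two] at this
      exact lt_irrefl _ this) hst0.1
    have b1 := l1 κ ⟨hκ.le, le_rfl⟩
    have b2 := l2 κ ⟨hκ.le, le_rfl⟩
    rw [show κ + (τ - κ) = τ by ring] at b1 b2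
    -- leg three
    have hK3 : ∀ s ∈ Icc κ τ, ((s, τ) : ℝ × ℝ) ∈ Kk τ κ := by
      rintro s ⟨a, b⟩
      exact ⟨by simp only; linarith, b, le_rfl, by simp only; linarith⟩
    have hc3 : ContinuousOn (fun s => Θ (s, τ)) (Icc κ τ) := by
      have : ContinuousOn (fun s : ℝ => ((s, τ) : ℝ × ℝ)) (Icc κ τ) := by fun_prop
      exact hΘc.comp this hK3
    have hs3 : ∀ s ∈ Icc κ τ, Real.sin (Θ (s, τ)) ≤ 0 := by
      intro s hs
      rcases eq_or_lt_of_le hs.2 with h1 | h1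
      · rw [h1, hd τ ⟨hτ.le, le_rfl⟩, hψτ, Real.sin_zero]
      · obtain ⟨r, hr0, -, e2⟩ := hr s τ (hK3 s hs) h1
        have := hlow s (by linarith [hs.1]) hs.2
        rw [hcase] at e2
        by_contra h
        have : 0 < r * Real.sin (Θ (s, τ)) := mul_pos hr0 (not_le.1 h)
        linarith
    have l3 := stay_gt (v := Real.pi / 2) hc3 (fun t ht h => by
      have := hs3 t ht
      rw [h, Real.sin_pi_div_two] at this
      norm_num at this) b2
    have := l3 τ ⟨by linarith, le_rfl⟩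
    rw [hd τ ⟨hτ.le, le_rfl⟩, hψτ] at this
    linarith
  · -- CASE A
    have hy : (c 0).2 < (c τ).2 := by
      refine lt_of_le_of_ne (hlow τ hτ.le le_rfl) fun h => hcase ?_
      exact Prod.ext hx h.symm
    obtain ⟨Θ, hΘc, hr, hd⟩ := main_lift hL ψ c τ 0 hψ hτ hτ hc h0
      (fun s t hq hst h => by
        obtain ⟨q1, q2, q3, q4⟩ := hq
        simp only at q1 q2 q3 q4
        obtain ⟨e1, e2⟩ := hinj s t q1 hst q3 h
        rw [e1, e2] at h
        exact hcase h.symm)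
    have leg1 := leg_one hτ hτ le_rfl h0 hlow hΘc hr hd
    rw [sub_zero] at leg1
    have hK3 : ∀ s ∈ Icc (0 : ℝ) τ, ((s, τ) : ℝ × ℝ) ∈ Kk τ 0 := by
      rintro s ⟨a, b⟩
      exact ⟨a, b, le_rfl, by simp only; linarith⟩
    have hc3 : ContinuousOn (fun s => Θ (s, τ)) (Icc 0 τ) := by
      have : ContinuousOn (fun s : ℝ => ((s, τ) : ℝ × ℝ)) (Icc 0 τ) := by fun_prop
      exact hΘc.comp this hK3
    have hcorner : Θ (0, τ) = Real.pi / 2 := by
      obtain ⟨r, hr0, e1, e2⟩ := hr 0 τ (hK3 0 ⟨le_rfl, hτ.le⟩) hτ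
      obtain ⟨a1, a2⟩ := leg1 τ ⟨hτ.le, le_rfl⟩
      have hc0 : Real.cos (Θ (0, τ)) = 0 := by
        have : r * Real.cos (Θ (0, τ)) = 0 := by rw [← e1, hx, sub_self]
        rcases mul_eq_zero.1 this with h | h
        · exact absurd h hr0.ne'
        · exact h
      exact Real.injOn_cos ⟨a1, a2⟩ (show Real.pi / 2 ∈ Icc 0 Real.pi from
        ⟨by linarith, by linarith⟩) (by rw [hc0, Real.cos_pi_div_two])
    -- near s = 0
    set κ : ℝ := min κ1 (τ / 2) with hκd
    have hκ : 0 < κ := by positivity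
    have k1 : κ ≤ κ1 := min_le_left _ _
    have k3 : κ ≤ τ / 2 := min_le_right _ _
    have m1 : StrictMonoOn (fun s => (c s).1) (Icc 0 κ) := hmono 0 κ fun t ht =>
      hn1 t (by rw [abs_le]; constructor <;> linarith [ht.1, ht.2])
    have hcw := hc3 0 ⟨le_rfl, hτ.le⟩
    have hcw2 : ∀ᶠ s in 𝓝[Icc 0 τ] 0, Θ (s, τ) < 3 * Real.pi / 2 ∧ 0 < Θ (s, τ) := by
      have e1 : (fun s => Θ (s, τ)) 0 < 3 * Real.pi / 2 := by simp only; rw [hcorner]; linarith
      have e2 : 0 < (fun s => Θ (s, τ)) 0 := by simp only; rw [hcorner]; linarith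
      exact (hcw.eventually (gt_mem_nhds e1)).and (hcw.eventually (lt_mem_nhds e2))
    rw [eventually_nhdsWithin_iff, Metric.eventually_nhds_iff] at hcw2
    obtain ⟨ε, hε, hcw3⟩ := hcw2
    set s1 : ℝ := min (ε / 2) κ with hs1
    have hs1pos : 0 < s1 := by positivity
    have hs1a : s1 ≤ ε / 2 := min_le_left _ _
    have hs1b : s1 ≤ κ := min_le_right _ _
    obtain ⟨-, d2⟩ := hcw3 (y := s1) (by
      rw [Real.dist_eq, sub_zero, abs_of_pos hs1pos]; linarith) ⟨hs1pos.le, by linarith⟩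
    have d3 : Real.pi / 2 < Θ (s1, τ) := by
      have a1 := m1 (a := 0) (b := s1) ⟨le_rfl, hκ.le⟩ ⟨hs1pos.le, hs1b⟩ hs1pos
      simp only at a1
      obtain ⟨r, hr0, e1, -⟩ := hr s1 τ (hK3 s1 ⟨hs1pos.le, by linarith⟩) (by linarith)
      rw [hx] at e1
      by_contra h
      have := Real.cos_nonneg_of_neg_pi_div_two_le_of_le (x := Θ (s1, τ)) (by linarith)
          (not_lt.1 h)
      have : 0 ≤ r * Real.cos (Θ (s1, τ)) := mul_nonneg hr0.le this
      linarith
    have hsub : Icc s1 τ ⊆ Icc 0 τ := Icc_subset_Icc_left hs1pos.le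
    have l3 := stay_gt (v := Real.pi / 2) (hc3.mono hsub) (fun t ht h => by
      rcases eq_or_lt_of_le ht.2 with h1 | h1
      · rw [h1, hd τ ⟨hτ.le, le_rfl⟩] at h
        rw [h, abs_of_pos (by linarith)] at hang
        exact lt_irrefl _ hang
      · obtain ⟨r, hr0, e1, e2⟩ := hr t τ (hK3 t (hsub ht)) h1
        rw [h, Real.cos_pi_div_two, mul_zero] at e1
        rw [h, Real.sin_pi_div_two, mul_one] at e2
        refine hcross t (by linarith [ht.1]) h1 ⟨?_, ?_⟩
        · rw [← hx]; linarith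
        · linarith) d3
    have := l3 τ ⟨by linarith, le_rfl⟩
    rw [hd τ ⟨hτ.le, le_rfl⟩] at this
    linarith [(abs_lt.1 hang).2]

end Pool.Agent.W853.DQ
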